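import Pool.Agent.DH10.Moments

/-!
# Cohen-Lenstra statistics for determinantal 2-hypertrees (MP_0d4385_pr), all odd primes
-/

set_option autoImplicit false

open Finset Filter Topology

namespace Pool.Agent.Results.MP_0d4385_pr.CohenLenstra

open Pool.Agent.DH10

/-- the 1-cycles of the complete graph on `n` vertices (integer coefficients) -/
def Cyc1 (n : ℕ) : Submodule ℤ (Edg n → ℤ) := LinearMap.ker (bd1 n)

/-- the boundaries of the 2-chains supported on the set of triangles `S`, inside the 1-cycles -/
def Bnd1 {n : ℕ} (S : Finset (Tri n)) : Submodule ℤ (Cyc1 n) :=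
  (LinearMap.range (bd2 S)).submoduleOf (Cyc1 n)

/-- `H_1(S; ℤ)` for the complex with complete 1-skeleton on `n` vertices and set of triangles `S` -/
def Homology1 {n : ℕ} (S : Finset (Tri n)) : Type := Cyc1 n ⧸ Bnd1 S

/-- the group structure of the quotient -/
noncomputable instance {n : ℕ} (S : Finset (Tri n)) : AddCommGroup (Homology1 S) :=
  Submodule.Quotient.addCommGroup (Bnd1 S)

/-- `S` is the set of triangles of a 2-dimensional hypertree on `n` vertices (complete 1-skeleton):
`C(n-1,2)` triangles and finite first integral homology -/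
def IsHypertree {n : ℕ} (S : Finset (Tri n)) : Prop :=
  S.card = (n - 1).choose 2 ∧ Finite (Homology1 S)

open Classical in
/-- the probability that the `p`-primary part of `H_1(T_n; ℤ)` is isomorphic to `G`: the sum of
`|H_1(S; ℤ)|^2 / n^C(n-2,2)` over the hypertrees `S` for which it is -/
noncomputable def prob (n p : ℕ) (G : Type) [AddCommGroup G] : ℝ :=
  ∑ S : Finset (Tri n),
    if IsHypertree S ∧ Nonempty (AddCommGroup.primaryComponent (Homology1 S) p ≃+ G) then
      (Nat.card (Homology1 S) : ℝ) ^ 2 / (n : ℝ) ^ ((n - 2).choose 2)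
    else 0

/-- For every odd prime `p` and every finite abelian `p`-group `G`, the probability that the `p`-primary part of
`H_1(T_n; ℤ)` is isomorphic to `G` tends to `∏_{j ≥ 1} (1 - p^{-j}) / |Aut G|`. -/
theorem result (p : ℕ) [Fact p.Prime] (hp : p ≠ 2) (G : Type) [AddCommGroup G] [Finite G]
    (hG : ∀ a : G, ∃ k : ℕ, p ^ k • a = 0) :
    Tendsto (fun n : ℕ => prob n p G) atTop
      (𝓝 ((∏' j : ℕ, (1 - ((p : ℝ)⁻¹) ^ (j + 1))) / (Nat.card (G ≃+ G) : ℝ))) := by
  classical
  refine (limit_law p hp G hG).congr fun n => ?_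
  rw [prob, Finset.sum_filter, cand]
  symm
  rw [← Finset.sum_subset (Finset.subset_univ (powersetCard (NN n) (univ : Finset (Tri n))))]
  · refine Finset.sum_congr rfl fun S hS => ?_
    have h1 : S.card = (n - 1).choose 2 := (Finset.mem_powersetCard.1 hS).2
    simp only [IsHypertree, h1, true_and, W]
    rfl
  · intro S _ hS
    rw [if_neg]
    intro h
    exact hS (Finset.mem_powersetCard.2 ⟨Finset.subset_univ _, h.1.1⟩)

end Pool.Agent.Results.MP_0d4385_pr.CohenLenstra
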